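import Pool.Agent.H97.PRP.Targets

/-!
# CPB. Capturing subsets of `κ` in the second case
-/

open Ordinal Cardinal Order Set
open scoped ZFSet

universe u

namespace Pool.Agent.H64.PRP

open _root_.HD HD.PRK HD.PRP

/-- CPB. The second case. -/
theorem pf_CPB (h0 : HD.PRK.T_CI.{u}) (h1 : T_LC.{u}) (h2 : HD.PRP.T_PC.{u}) (h3 : T_DDO.{u})
    (h4 : T_DDT.{u}) (h5 : T_DDC.{u}) : T_CPB.{u} := by
  classical
  intro δ hδ hA K hK hδK
  obtain ⟨η, -, θ, j, hj⟩ := HD.All.xa δ hδ 0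
  obtain ⟨D, rfl, hDr, hDs, hD0⟩ := HD.All.xb δ η θ j hj
  have hDK : D < K := Cardinal.ord_lt_ord.1 hδK
  obtain ⟨G, hG, hbad⟩ := h1 (fun x X => ¬ ∃ E, OD E ∧ Thin D.ord E ∧ Cap x X E) (h2 D.ord) K.ord
  have hω : (ω : Ordinal.{u}) < D.ord := by
    rw [← Cardinal.ord_aleph0]; exact Cardinal.ord_lt_ord.2 hD0
  have hex : ∀ μ : Ordinal.{u}, ∃ C, Clb K.ord C ∧ (μ < D.ord → ω ≤ μ →
      ∀ x, SmS μ K.ord C x → ∀ a : Ordinal.{u}, a.toZFSet ∈ x →
        {b : Ordinal.{u} | b.toZFSet ∈ x ∧ b < a}.Finite →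
          ZFSet.pair (x ∩ (succ a).toZFSet) (os a (sec G x)) ∈ DD μ K.ord G) := by
    intro μ
    by_cases hμ : μ < D.ord ∧ ω ≤ μ
    · obtain ⟨C, hC, hC'⟩ := h5 D.ord hδ hA K hK hδK μ hμ.1 hμ.2 G hG
      exact ⟨C, hC, fun _ _ => hC'⟩
    · obtain ⟨C, hC, -⟩ := h5 D.ord hδ hA K hK hδK ω hω le_rfl G hG
      exact ⟨C, hC, fun a b => absurd ⟨a, b⟩ hμ⟩
  choose C hC hCx using hex
  refine ⟨_, h0 K hK (hD0.trans hDK) D.ord hδK C (fun i _ => hC i), ?_⟩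
  intro x hx X hX hXp
  by_contra hcon
  have hxK : x ⊆ K.ord.toZFSet := by
    intro z hz
    obtain ⟨a, ha, -, -, rfl⟩ := hx.mem z hz
    exact toZFSet_mem_toZFSet_iff.2 ha
  obtain ⟨-, hno⟩ := hbad x hxK X hX hXp hcon
  apply hno
  obtain ⟨τ, hτ, g, hg⟩ := hx.few
  -- the bound of the cofinalities
  let c : τ.ToType → Ordinal.{u} := fun t =>
    if (g (Ordinal.ToType.mk.symm t).1).cof.ord < D.ord then
      (g (Ordinal.ToType.mk.symm t).1).cof.ord else 0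
  have hD0' : (0 : Ordinal.{u}) < D.ord := by
    have : (0 : Cardinal.{u}) < D := lt_of_lt_of_le Cardinal.aleph0_pos hD0.le
    simpa using Cardinal.ord_lt_ord.2 this
  have hc : ∀ t, c t < D.ord := by
    intro t
    simp only [c]
    split_ifs with h
    · exact h
    · exact hD0'
  have hsup : ⨆ t, c t < D.ord := by
    refine Ordinal.iSup_lt_of_lt_cof ?_ hc
    rw [Cardinal.mk_toType, hDr.cof_ord]
    exact Cardinal.lt_ord.1 hτ
  set μ : Ordinal.{u} := max ω (max τ (⨆ t, c t)) with hμdef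
  have hμD : μ < D.ord := max_lt hω (max_lt hτ hsup)
  have hsm : SmS μ K.ord (C μ) x := by
    refine ⟨hx.ne, fun z hz => ?_, g, fun a ha => ?_⟩
    · obtain ⟨a, ha, haC, hacof, rfl⟩ := hx.mem z hz
      refine ⟨a, ha, haC μ hμD, ?_, rfl⟩
      obtain ⟨i, hi, hgi⟩ := hg a hz
      have hle : a.cof.ord ≤ ⨆ t, c t := by
        have h4 : c (Ordinal.ToType.mk ⟨i, hi⟩) = a.cof.ord := by
          simp only [c, OrderIso.symm_apply_apply, hgi]
          rw [if_pos hacof]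
        rw [← h4]
        exact le_ciSup Ordinal.bddAbove_of_small _
      exact hle.trans ((le_max_right _ _).trans (le_max_right _ _))
    · obtain ⟨i, hi, hgi⟩ := hg a ha
      exact ⟨i, lt_of_lt_of_le hi ((le_max_left _ _).trans (le_max_right _ _)), hgi⟩
  refine ⟨DD μ K.ord G, h3 μ K.ord G hG, h4 D.ord hδ hA K hK hδK μ hμD (le_max_left _ _) G hG, ?_⟩
  intro a ha hfin
  have haK : a < K.ord := toZFSet_mem_toZFSet_iff.1 (hxK ha)
  have h6 := hCx μ hμD (le_max_left _ _) x hsm a ha hfin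
  have h7 : os K.ord (sec G x) ∩ a.toZFSet = os a (sec G x) := by
    ext z
    rw [ZFSet.mem_inter, mem_os, mem_os]
    constructor
    · rintro ⟨⟨b, hb, hbs, rfl⟩, h⟩
      exact ⟨b, toZFSet_mem_toZFSet_iff.1 h, hbs, rfl⟩
    · rintro ⟨b, hb, hbs, rfl⟩
      exact ⟨⟨b, hb.trans haK, hbs, rfl⟩, toZFSet_mem_toZFSet_iff.2 hb⟩
  rw [h7]
  exact h6

end Pool.Agent.H64.PRP
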