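import Pool.Agent.H97.PRP.Targets
import Pool.Agent.H89.PRK.DEF

/-!
# PC. Definability of being captured
-/

open Ordinal Cardinal Order Set
open scoped ZFSet

universe u

namespace Pool.Agent.H64.PRP

open _root_.HD HD.PRK HD.PRP

/-- `Thin` at the level of sets -/
theorem pc_thin_iff (δ : Ordinal.{u}) (D : ZFSet.{u}) : Thin δ D ↔
    ∀ w : ZFSet.{u}, ∃ τ ∈ δ.toZFSet, ∃ g : ZFSet.{u},
      (∀ a x x', ZFSet.pair a x ∈ g → ZFSet.pair a x' ∈ g → x = x') ∧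
      ∀ Y, ZFSet.pair w Y ∈ D → ∃ a ∈ τ, ZFSet.pair a Y ∈ g := by
  constructor
  · intro h w
    obtain ⟨ν, hν, e, he⟩ := h w
    refine ⟨_, toZFSet_mem_toZFSet_iff.2 hν, gr e ν.ord, ?_, fun Y hY => ?_⟩
    · intro a x x' h h'
      obtain ⟨b, -, h1⟩ := mem_gr.1 h
      obtain ⟨b', -, h2⟩ := mem_gr.1 h'
      obtain ⟨rfl, rfl⟩ := ZFSet.pair_injective h1
      obtain ⟨h3, rfl⟩ := ZFSet.pair_injective h2
      rw [toZFSet_injective h3]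
    · obtain ⟨a, ha, rfl⟩ := he Y hY
      exact ⟨_, toZFSet_mem_toZFSet_iff.2 ha, pair_mem_gr.2 ⟨ha, rfl⟩⟩
  · intro h w
    obtain ⟨τ, hτ, g, h1, h2⟩ := h w
    obtain ⟨t, ht, rfl⟩ := mem_toZFSet_iff.1 hτ
    refine ⟨t.card, (Cardinal.ord_card_le t).trans_lt ht, ?_⟩
    obtain ⟨e, he⟩ := Pool.Agent.H89.PRK.def_reidx t
    classical
    refine ⟨fun a => if h : ∃ x, ZFSet.pair (e a).toZFSet x ∈ g then Classical.choose h else ∅,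
      fun Y hY => ?_⟩
    obtain ⟨a, ha, hp⟩ := h2 Y hY
    obtain ⟨a, ha', rfl⟩ := mem_toZFSet_iff.1 ha
    obtain ⟨b, hb, rfl⟩ := he a ha'
    refine ⟨b, hb, ?_⟩
    have hex : ∃ x, ZFSet.pair (e b).toZFSet x ∈ g := ⟨Y, hp⟩
    simp only [hex, dif_pos]
    exact h1 _ _ _ hp (Classical.choose_spec hex)

theorem pc_dz_thin (δ : Ordinal.{u}) (i : ℕ) : DZ.{u} fun v => Thin δ (v i) := by
  refine DZ.congr (P := fun v => ∀ w : ZFSet.{u}, ∃ τ ∈ δ.toZFSet, ∃ g : ZFSet.{u},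
      (∀ a x x', ZFSet.pair a x ∈ g → ZFSet.pair a x' ∈ g → x = x') ∧
      ∀ Y, ZFSet.pair w Y ∈ v i → ∃ a ∈ τ, ZFSet.pair a Y ∈ g) ?_ fun v => pc_thin_iff δ (v i)
  refine DZ.od (R := fun b v => ∀ w : ZFSet.{u}, ∃ τ ∈ b, ∃ g : ZFSet.{u},
      (∀ a x x', ZFSet.pair a x ∈ g → ZFSet.pair a x' ∈ g → x = x') ∧
      ∀ Y, ZFSet.pair w Y ∈ v i → ∃ a ∈ τ, ZFSet.pair a Y ∈ g) (OD.ordinal δ) ?_
  exact DZ.all (DZ.exMem 1 (DZ.ex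
        (DZ.and (DZ.all (DZ.all (DZ.all (((loc_pmem 2 1 3).dz.imp
          ((loc_pmem 2 0 3).dz.imp (DZ.eq 1 0))))))) (DZ.all ((loc_pmem 3 0 (i + 5)).dz.imp
            (DZ.exMem 2 (loc_pmem 0 1 2).dz))))))

/-- finite sets of ordinals -/
theorem pc_fin_iff (x : ZFSet.{u}) (a : Ordinal.{u}) :
    {b : Ordinal.{u} | b.toZFSet ∈ x ∧ b < a}.Finite ↔
      ∃ ν < ℵ₀, NF.Sz ν (x ∩ a.toZFSet) := by
  classical
  constructor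
  · intro h
    obtain ⟨n, f, -, hr⟩ := h.fin_param
    refine ⟨(n : Cardinal.{u}), Cardinal.natCast_lt_aleph0, fun a => if h : ∃ k : Fin n,
      (((k : ℕ) : Ordinal.{u})) = a then (f (Classical.choose h)).toZFSet else ∅,
      fun z hz => ?_⟩
    rw [ZFSet.mem_inter] at hz
    obtain ⟨hzx, hza⟩ := hz
    obtain ⟨b, hb, rfl⟩ := mem_toZFSet_iff.1 hza
    have hbr : b ∈ Set.range f := by
      rw [hr]
      exact ⟨hzx, hb⟩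
    obtain ⟨k, rfl⟩ := hbr
    refine ⟨((k : ℕ) : Ordinal.{u}), ?_, ?_⟩
    · rw [Cardinal.ord_natCast]
      exact_mod_cast k.2
    · have hex : ∃ k' : Fin n, (((k' : ℕ) : Ordinal.{u})) = ((k : ℕ) : Ordinal.{u}) := ⟨k, rfl⟩
      simp only [hex, dif_pos]
      have h1 := Classical.choose_spec hex
      have h2 : Classical.choose hex = k := Fin.ext (by exact_mod_cast h1)
      rw [h2]
  · rintro ⟨ν, hν, e, he⟩
    obtain ⟨n, rfl⟩ := Cardinal.lt_aleph0.1 hν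
    have h1 : (Set.Iio ((n : Cardinal.{u}).ord)).Finite := by
      refine ((Set.finite_Iio n).image (Nat.cast : ℕ → Ordinal.{u})).subset ?_
      intro c hc
      rw [Cardinal.ord_natCast, Set.mem_Iio] at hc
      obtain ⟨m, rfl⟩ := Ordinal.lt_omega0.1 (hc.trans (Ordinal.natCast_lt_omega0 n))
      exact ⟨m, by exact_mod_cast hc, rfl⟩
    refine ((h1.image e).preimage (f := Ordinal.toZFSet.{u})
      (toZFSet_injective.injOn)).subset ?_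
    rintro b ⟨hb1, hb2⟩
    obtain ⟨c, hc, h2⟩ := he b.toZFSet (by
      rw [ZFSet.mem_inter]
      exact ⟨hb1, toZFSet_mem_toZFSet_iff.2 hb2⟩)
    exact ⟨c, hc, h2.symm⟩

/-- `Cap` at the level of sets -/
theorem pc_cap_iff (x X D : ZFSet.{u}) : Cap x X D ↔
    ∀ z ∈ x, z.IsOrdinal → ∀ s, (∀ t, t ∈ s ↔ t ∈ x ∧ t ∈ z) → (∃ ν < ℵ₀, NF.Sz ν s) →
      ∀ w, (∀ t, t ∈ w ↔ t ∈ x ∧ (t = z ∨ t ∈ z)) → ∀ Y, (∀ t, t ∈ Y ↔ t ∈ X ∧ t ∈ z) →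
        ZFSet.pair w Y ∈ D := by
  constructor
  · intro h z hz hzo s hs hfin w hw Y hY
    obtain ⟨a, rfl⟩ := ord_of hzo
    have h1 : s = x ∩ a.toZFSet := by
      ext t
      rw [hs, ZFSet.mem_inter]
    have h2 : w = x ∩ (succ a).toZFSet := by
      ext t
      rw [hw, ZFSet.mem_inter, toZFSet_succ, ZFSet.mem_insert_iff]
    have h3 : Y = X ∩ a.toZFSet := by
      ext t
      rw [hY, ZFSet.mem_inter]
    rw [h1] at hfin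
    rw [h2, h3]
    exact h a hz ((pc_fin_iff x a).2 hfin)
  · intro h a ha hfin
    refine h a.toZFSet ha (ZFSet.isOrdinal_toZFSet a) (x ∩ a.toZFSet) (fun t => ZFSet.mem_inter)
      ((pc_fin_iff x a).1 hfin) _ (fun t => ?_) _ (fun t => ZFSet.mem_inter)
    rw [ZFSet.mem_inter, toZFSet_succ, ZFSet.mem_insert_iff]

theorem pc_dz_cap (i j k : ℕ) : DZ.{u} fun v => Cap (v i) (v j) (v k) := by
  refine DZ.congr (P := fun v => ∀ z ∈ v i, z.IsOrdinal → ∀ s, (∀ t, t ∈ s ↔ t ∈ v i ∧ t ∈ z) →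
    (∃ ν < ℵ₀, NF.Sz ν s) → ∀ w, (∀ t, t ∈ w ↔ t ∈ v i ∧ (t = z ∨ t ∈ z)) →
      ∀ Y, (∀ t, t ∈ Y ↔ t ∈ v j ∧ t ∈ z) → ZFSet.pair w Y ∈ v k) ?_
    fun v => pc_cap_iff (v i) (v j) (v k)
  refine DZ.allMem i ((DZ.ord 0).imp ?_)
  -- `z, v`
  refine DZ.all (R := fun s v => (∀ t, t ∈ s ↔ t ∈ v (i + 1) ∧ t ∈ v 0) →
    (∃ ν < ℵ₀, NF.Sz ν s) → ∀ w, (∀ t, t ∈ w ↔ t ∈ v (i + 1) ∧ (t = v 0 ∨ t ∈ v 0)) →
      ∀ Y, (∀ t, t ∈ Y ↔ t ∈ v (j + 1) ∧ t ∈ v 0) → ZFSet.pair w Y ∈ v (k + 1)) ?_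
  refine (DZ.all (R := fun t v => t ∈ v 0 ↔ t ∈ v (i + 2) ∧ t ∈ v 1)
    ((DZ.mem 0 1).iff ((DZ.mem 0 (i + 3)).and (DZ.mem 0 2)))).imp
    ((Pool.Agent.H89.PRK.def_dz_few ℵ₀ 0).imp ?_)
  -- `s, z, v`
  refine DZ.all (R := fun w v => (∀ t, t ∈ w ↔ t ∈ v (i + 2) ∧ (t = v 1 ∨ t ∈ v 1)) →
      ∀ Y, (∀ t, t ∈ Y ↔ t ∈ v (j + 2) ∧ t ∈ v 1) → ZFSet.pair w Y ∈ v (k + 2)) ?_
  refine (DZ.all (R := fun t v => t ∈ v 0 ↔ t ∈ v (i + 3) ∧ (t = v 2 ∨ t ∈ v 2))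
    ((DZ.mem 0 1).iff ((DZ.mem 0 (i + 4)).and ((DZ.eq 0 3).or (DZ.mem 0 3))))).imp ?_
  -- `w, s, z, v`
  refine DZ.all (R := fun Y v => (∀ t, t ∈ Y ↔ t ∈ v (j + 3) ∧ t ∈ v 2) →
    ZFSet.pair (v 0) Y ∈ v (k + 3)) ?_
  exact (DZ.all (R := fun t v => t ∈ v 0 ↔ t ∈ v (j + 4) ∧ t ∈ v 3)
    ((DZ.mem 0 1).iff ((DZ.mem 0 (j + 5)).and (DZ.mem 0 4)))).imp (loc_pmem 1 0 (k + 4)).dz

/-- PC. Definability. -/
theorem pf_PC : HD.PRP.T_PC.{u} := by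
  intro δ
  obtain ⟨en, hen⟩ := HD.All.en.{u}
  exact (DZ.ex (R := fun D v => OD D ∧ Thin δ D ∧ Cap (v 0) (v 1) D)
    ((hen.dzOD 0).and ((pc_dz_thin δ 0).and (pc_dz_cap 1 2 0)))).not

end Pool.Agent.H64.PRP
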