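import Pool.Agent.H97.PRP.Targets2
import Pool.Agent.H64.PRP.PC

/-!
# PC2. Definability of being captured at all points
-/

open Ordinal Cardinal Order Set
open scoped ZFSet

universe u

namespace Pool.Agent.H64.PRP

open _root_.HD HD.PRK HD.PRP

/-- `CapA` at the level of sets -/
theorem pc2_cap_iff (x X D : ZFSet.{u}) : CapA x X D ↔
    ∀ z ∈ x, z.IsOrdinal → ∀ w, (∀ t, t ∈ w ↔ t ∈ x ∧ (t = z ∨ t ∈ z)) →
      ∀ Y, (∀ t, t ∈ Y ↔ t ∈ X ∧ t ∈ z) → ZFSet.pair w Y ∈ D := by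
  constructor
  · intro h z hz hzo w hw Y hY
    obtain ⟨a, rfl⟩ := ord_of hzo
    have h2 : w = x ∩ (succ a).toZFSet := by
      ext t
      rw [hw, ZFSet.mem_inter, toZFSet_succ, ZFSet.mem_insert_iff]
    have h3 : Y = X ∩ a.toZFSet := by
      ext t
      rw [hY, ZFSet.mem_inter]
    rw [h2, h3]
    exact h a hz
  · intro h a ha
    refine h a.toZFSet ha (ZFSet.isOrdinal_toZFSet a) _ (fun t => ?_) _ (fun t => ZFSet.mem_inter)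
    rw [ZFSet.mem_inter, toZFSet_succ, ZFSet.mem_insert_iff]

theorem pc2_dz_cap (i j k : ℕ) : DZ.{u} fun v => CapA (v i) (v j) (v k) := by
  refine DZ.congr (P := fun v => ∀ z ∈ v i, z.IsOrdinal →
    ∀ w, (∀ t, t ∈ w ↔ t ∈ v i ∧ (t = z ∨ t ∈ z)) →
      ∀ Y, (∀ t, t ∈ Y ↔ t ∈ v j ∧ t ∈ z) → ZFSet.pair w Y ∈ v k) ?_
    fun v => pc2_cap_iff (v i) (v j) (v k)
  refine DZ.allMem i ((DZ.ord 0).imp ?_)
  -- `z, v`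
  refine DZ.all (R := fun w v => (∀ t, t ∈ w ↔ t ∈ v (i + 1) ∧ (t = v 0 ∨ t ∈ v 0)) →
      ∀ Y, (∀ t, t ∈ Y ↔ t ∈ v (j + 1) ∧ t ∈ v 0) → ZFSet.pair w Y ∈ v (k + 1)) ?_
  refine (DZ.all (R := fun t v => t ∈ v 0 ↔ t ∈ v (i + 2) ∧ (t = v 1 ∨ t ∈ v 1))
    ((DZ.mem 0 1).iff ((DZ.mem 0 (i + 3)).and ((DZ.eq 0 2).or (DZ.mem 0 2))))).imp ?_
  -- `w, z, v`
  refine DZ.all (R := fun Y v => (∀ t, t ∈ Y ↔ t ∈ v (j + 2) ∧ t ∈ v 1) →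
    ZFSet.pair (v 0) Y ∈ v (k + 2)) ?_
  exact (DZ.all (R := fun t v => t ∈ v 0 ↔ t ∈ v (j + 3) ∧ t ∈ v 2)
    ((DZ.mem 0 1).iff ((DZ.mem 0 (j + 4)).and (DZ.mem 0 3)))).imp (loc_pmem 1 0 (k + 3)).dz

/-- PC2. Definability. -/
theorem pf_PC2 : T_PC2.{u} := by
  intro δ
  obtain ⟨en, hen⟩ := HD.All.en.{u}
  exact (DZ.ex (R := fun D v => OD D ∧ Thin δ D ∧ CapA (v 0) (v 1) D)
    ((hen.dzOD 0).and ((pc_dz_thin δ 0).and (pc2_dz_cap 1 2 0)))).not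

end Pool.Agent.H64.PRP
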